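import Pool.Agent.R790.Sep.Hyp

/-! Finitely generated groups which are not hyperbolic and whose Cayley graphs have a separation
profile of arbitrarily slow growth, in particular a logarithmic one. -/

set_option autoImplicit false

namespace Pool.Agent.Results.MP_fe703c_gt.SlowSeparation

open Pool.Agent.R790.Sep Filter

theorem main (ρ : ℕ → ℕ) (hρ : Tendsto ρ atTop atTop) :
    ∃ (G : Type) (_ : Group G) (a : Fin 3 → G),
      Subgroup.closure (Set.range a) = ⊤ ∧ (∀ᶠ n in atTop, sep (Cay a) n ≤ ρ n) ∧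
      ¬ Hyperbolic (Cay a) := by
  have h1 : ∀ j : ℕ, ∃ A : ℕ, ∀ n, A ≤ n → 12 * 2 ^ (j + 1) ≤ ρ n := by
    intro j
    exact eventually_atTop.1 (hρ.eventually_ge_atTop _)
  choose A hA using h1
  let M : ℕ → ℕ := fun j => ∑ i ∈ Finset.range (j + 1), (2 * A i + 1)
  have hM : Monotone M := by
    intro i j hij
    exact Finset.sum_le_sum_of_subset (Finset.range_subset_range.2 (by omega))
  have hMA : ∀ j, 2 * A j + 1 ≤ M j := by
    intro j
    exact Finset.single_le_sum (f := fun i => 2 * A i + 1) (fun _ _ => Nat.zero_le _)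
      (Finset.self_mem_range_succ j)
  have hMj : ∀ j, j + 1 ≤ M j := by
    intro j
    calc j + 1 = ∑ _i ∈ Finset.range (j + 1), 1 := by simp
      _ ≤ M j := Finset.sum_le_sum (fun i _ => by omega)
  obtain ⟨Γ, _, a, ha, hloc, hH⟩ := exists_limit M hM (fun j => by have := hMj j; omega)
  refine ⟨Γ, inferInstance, a, ha, ?_, not_hyperbolic a ha hH⟩
  obtain ⟨N0, hN0⟩ := eventually_atTop.1 (hρ.eventually_ge_atTop 12)
  rw [eventually_atTop]
  refine ⟨N0, ?_⟩
  intro n hn
  have hex : ∃ j, 2 * n ≤ M j := ⟨2 * n, by have := hMj (2 * n); omega⟩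
  classical
  obtain ⟨j, hj1, hj2⟩ : ∃ j, 2 * n ≤ M j ∧ 12 * 2 ^ j ≤ ρ n := by
    refine ⟨Nat.find hex, Nat.find_spec hex, ?_⟩
    rcases h : Nat.find hex with _ | j
    · have := hN0 n hn
      simpa using this
    · have h2 := Nat.find_min hex (m := j) (by omega)
      apply hA
      have := hMA j
      omega
  obtain ⟨G, _, g, 𝒦, hws, hK, hl⟩ := hloc j
  refine le_trans ?_ hj2
  apply sep_le
  intro Λ hfin hcard
  obtain ⟨S, hS1, hS2⟩ := exists_cut a g 𝒦 hws hK (N := n)
    (fun l hll => hl l (hll.trans hj1)) Λ hfin hcard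
  exact (cut_le Λ S hS1).trans hS2

/-- For every function `ρ` tending to infinity there is a group generated by three elements whose
Cayley graph is connected, locally finite and vertex-transitive, has logarithmic separation
profile and even separation profile eventually at most `ρ`, and is not hyperbolic. -/
theorem result
    (ρ : ℕ → ℕ) (hρ : Tendsto ρ atTop atTop) :
    ∃ (G : Type) (_ : Group G) (a : Fin 3 → G),
      Subgroup.closure (Set.range a) = ⊤ ∧
      (Cay a).Connected ∧
      (∀ v, ((Cay a).neighborSet v).Finite) ∧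
      (∀ u v, ∃ f : Cay a ≃g Cay a, f u = v) ∧
      (∃ C : ℝ, ∀ n : ℕ, 2 ≤ n → (sep (Cay a) n : ℝ) ≤ C * Real.log n) ∧
      (∀ᶠ n in atTop, sep (Cay a) n ≤ ρ n) ∧
      ¬ Hyperbolic (Cay a) := by
  have hlog : Tendsto (fun n => Nat.log 2 n) atTop atTop := by
    rw [tendsto_atTop_atTop]
    intro b
    refine ⟨2 ^ b, fun n hn => ?_⟩
    exact Nat.le_log_of_pow_le (by norm_num) hn
  have hmin : Tendsto (fun n => min (ρ n) (Nat.log 2 n)) atTop atTop := by
    rw [tendsto_atTop]
    intro b
    filter_upwards [hρ.eventually_ge_atTop b, hlog.eventually_ge_atTop b] with n h1 h2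
    exact le_min h1 h2
  obtain ⟨G, _, a, ha, hsep, hhyp⟩ := main _ hmin
  refine ⟨G, inferInstance, a, ha, cay_conn a ha, cay_lf a, cay_trans a, ?_, ?_, hhyp⟩
  · obtain ⟨n0, hn0⟩ := eventually_atTop.1 hsep
    refine ⟨(n0 + 1) / Real.log 2, ?_⟩
    intro n hn
    have hl2 : 0 < Real.log 2 := Real.log_pos (by norm_num)
    have hln : Real.log 2 ≤ Real.log n := Real.log_le_log (by norm_num) (by exact_mod_cast hn)
    rcases le_total n0 n with h | h
    · have h1 : (sep (Cay a) n : ℝ) ≤ (Nat.log 2 n : ℝ) := by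
        exact_mod_cast (hn0 n h).trans (min_le_right _ _)
      have h2 : (Nat.log 2 n : ℝ) ≤ Real.logb 2 n := Real.natLog_le_logb n 2
      have h3 : Real.logb 2 n = Real.log n / Real.log 2 := rfl
      have h4 : (n0 + 1 : ℝ) / Real.log 2 * Real.log n =
          Real.log n / Real.log 2 + n0 * (Real.log n / Real.log 2) := by ring
      have h5 : 0 ≤ (n0 : ℝ) * (Real.log n / Real.log 2) := by
        have : 0 ≤ Real.log n / Real.log 2 := div_nonneg (hl2.le.trans hln) hl2.le
        positivity
      rw [h4]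
      rw [h3] at h2
      linarith
    · have h1 : (sep (Cay a) n : ℝ) ≤ (n0 : ℝ) := by
        exact_mod_cast (sep_le_self n).trans h
      have h2 : 1 ≤ Real.log n / Real.log 2 := (one_le_div hl2).2 hln
      have h4 : (n0 + 1 : ℝ) / Real.log 2 * Real.log n =
          (n0 + 1) * (Real.log n / Real.log 2) := by ring
      rw [h4]
      have h5 : (0 : ℝ) ≤ n0 := Nat.cast_nonneg _
      nlinarith
  · filter_upwards [hsep] with n hn
    exact hn.trans (min_le_left _ _)

end Pool.Agent.Results.MP_fe703c_gt.SlowSeparation
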